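import Pool.Agent.H251.MLSMix

/-!
# MP_bada7b_pr: the inverse modified log-Sobolev constant is not bounded by a multiple of the
entropy hitting-time parameter, nor of the entropy mixing time

The chains are birth and death chains on `{0, …, K}` with conductances `2^i / (2K)` on the edge
`(i, i + 1)` and weights `1` at `0`, `(3 / (2K)) 2^(i - 1)` at `0 < i < K` and `4^K` at `K`.
From every state the chain reaches the heavy state `K` at rate of order `1 / K`, so both
`ρ_ent` and `τ_ent` are `O(K log K)`, while the function `e^f = 4^(K - i)` has entropy of order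
`K` and Dirichlet form `E(e^f, f) = O(1 / K)`, so that `1 / c_MLS ≥ 2 K (K - 8) / 3`.
-/

namespace Pool.Agent.Results.MP_bada7b_pr.NoComparison

open Pool.Agent.H251.MLS

/-- For every value `Cent > 0` of the constant in the definition of `ρ_ent` and for every `C`
there is a finite irreducible reversible Markov chain (on `Fin n`) whose modified log-Sobolev
constant is positive and satisfies `1 / c_MLS > C ρ_ent` and `1 / c_MLS > C τ_ent`. -/
theorem result (Cent : ℝ) (hCent : 0 < Cent) (C : ℝ) :
    ∃ (n : ℕ) (P : Matrix (Fin n) (Fin n) ℝ) (π : Fin n → ℝ), IsChain P π ∧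
      0 < cMLS P π ∧ C * max (rhoEnt Cent P π) (tauEnt P π) < 1 / cMLS P π := by
  -- the size
  set D : ℝ := max C 1 with hD
  have hD1 : 1 ≤ D := le_max_right _ _
  have hCD : C ≤ D := le_max_left _ _
  set a : ℝ := 96 + 12 / Cent + 4 with ha
  have ha0 : 0 < a := by positivity
  obtain ⟨K, hKbig⟩ := exists_nat_gt (max 16 (4 * (36 * D) ^ 2 * a))
  have hK16 : (16 : ℝ) < K := lt_of_le_of_lt (le_max_left _ _) hKbig
  have hKa : 4 * (36 * D) ^ 2 * a < K := lt_of_le_of_lt (le_max_right _ _) hKbig
  have hK12 : 12 ≤ K := by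
    have : (12 : ℝ) < K := by linarith
    exact_mod_cast this.le
  have hc0 := cMLS_pos K (by omega)
  have hc1 := cMLS_le K (by omega)
  have ht := tauEnt_le Cent hCent K hK12
  have hr := rhoEnt_le Cent hCent K hK12
  refine ⟨K + 1, PP K, pp K, isChain K (by omega), hc0, ?_⟩
  have hT0 := TT_nonneg Cent hCent K
  have hmax : max (rhoEnt Cent (PP K) (pp K)) (tauEnt (PP K) (pp K)) ≤ TT Cent K := max_le hr ht
  have hmax0 : 0 ≤ max (rhoEnt Cent (PP K) (pp K)) (tauEnt (PP K) (pp K)) := by
    apply le_max_of_le_right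
    exact Real.iSup_nonneg (fun x => Real.sInf_nonneg (fun t h => h.1))
  -- the logarithm
  have hM : Real.log (96 * K + 12 * K / Cent + 4) ≤ 2 * Real.sqrt (a * K) := by
    have hK0 : (0 : ℝ) < K := by linarith
    have h1 : 96 * (K : ℝ) + 12 * K / Cent + 4 ≤ a * K := by
      have e : a * K = 96 * K + 12 * K / Cent + 4 * K := by rw [ha]; ring
      rw [e]; linarith
    have h2 : (0 : ℝ) < 96 * K + 12 * K / Cent + 4 := by positivity
    have h3 : Real.log (96 * K + 12 * K / Cent + 4) ≤ Real.log (a * K) := Real.log_le_log h2 h1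
    have h4 : a * K = Real.sqrt (a * K) ^ 2 := (Real.sq_sqrt (by positivity)).symm
    have h5 : Real.log (a * K) = 2 * Real.log (Real.sqrt (a * K)) := by
      conv_lhs => rw [h4]
      rw [Real.log_pow]; norm_num
    have h6 : Real.log (Real.sqrt (a * K)) ≤ Real.sqrt (a * K) - 1 :=
      Real.log_le_sub_one_of_pos (Real.sqrt_pos.mpr (by positivity))
    linarith
  have hsq : 36 * D * Real.sqrt (a * K) < K - 8 := by
    have hK0 : (0 : ℝ) < K := by linarith
    have h1 : (36 * D * Real.sqrt (a * K)) ^ 2 < (K - 8) ^ 2 := by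
      rw [mul_pow, Real.sq_sqrt (by positivity)]
      have h2 : (36 * D) ^ 2 * (a * K) < (K : ℝ) / 4 * K := by
        have : (36 * D) ^ 2 * a < (K : ℝ) / 4 := by linarith
        calc (36 * D) ^ 2 * (a * K) = ((36 * D) ^ 2 * a) * K := by ring
          _ < (K : ℝ) / 4 * K := mul_lt_mul_of_pos_right this hK0
      nlinarith
    exact lt_of_pow_lt_pow_left₀ 2 (by linarith) h1
  have hfin : D * TT Cent K < 2 * K * (K - 8) / 3 := by
    have hK0 : (0 : ℝ) < K := by linarith
    unfold TT
    have h1 : D * (12 * K * Real.log (96 * K + 12 * K / Cent + 4)) ≤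
        D * (12 * K * (2 * Real.sqrt (a * K))) :=
      mul_le_mul_of_nonneg_left (mul_le_mul_of_nonneg_left hM (by positivity)) (by linarith)
    have h2 : D * (12 * K * (2 * Real.sqrt (a * K))) = 2 * K / 3 * (36 * D * Real.sqrt (a * K)) := by
      ring
    have h3 : 2 * K / 3 * (36 * D * Real.sqrt (a * K)) < 2 * K / 3 * (K - 8) :=
      mul_lt_mul_of_pos_left hsq (by positivity)
    have h4 : 2 * (K : ℝ) / 3 * (K - 8) = 2 * K * (K - 8) / 3 := by ring
    linarith
  have hinv : 2 * K * (K - 8) / 3 ≤ 1 / cMLS (PP K) (pp K) := by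
    rw [le_div_iff₀ hc0]
    have h8 : (0 : ℝ) < K - 8 := by linarith
    have hK0 : (0 : ℝ) < K := by linarith
    calc 2 * K * (K - 8) / 3 * cMLS (PP K) (pp K)
        ≤ 2 * K * (K - 8) / 3 * (3 / (2 * K * (K - 8))) :=
          mul_le_mul_of_nonneg_left hc1 (by positivity)
      _ = 1 := by field_simp
  calc C * max (rhoEnt Cent (PP K) (pp K)) (tauEnt (PP K) (pp K))
      ≤ D * max (rhoEnt Cent (PP K) (pp K)) (tauEnt (PP K) (pp K)) :=
        mul_le_mul_of_nonneg_right hCD hmax0
    _ ≤ D * TT Cent K := mul_le_mul_of_nonneg_left hmax (by linarith)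
    _ < 2 * K * (K - 8) / 3 := hfin
    _ ≤ _ := hinv

end Pool.Agent.Results.MP_bada7b_pr.NoComparison
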